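import Pool.Agent.Work.MP_42e384_co.Count

set_option autoImplicit false

/-! Failure of unimodality. -/

namespace Pool.Agent.Whitney

open Set Submodule

theorem exists_large (s N : ℕ) : ∃ m : ℕ, 2 ≤ m ∧ N * ((m + 2) ^ s - m ^ s) ≤ m ^ s := by
  have h1 : Filter.Tendsto (fun m : ℕ => (1 + 2 / (m : ℝ)) ^ s) Filter.atTop (nhds ((1 + 0) ^ s)) := by
    apply Filter.Tendsto.pow
    exact (tendsto_const_nhds).add (tendsto_const_div_atTop_nhds_zero_nat 2)
  have h2 : ((1 : ℝ) + 0) ^ s < 1 + 1 / (N + 1) := by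
    have : (0 : ℝ) < 1 / (N + 1) := by positivity
    simp only [add_zero, one_pow]
    linarith
  obtain ⟨m, hm1, hm2⟩ := ((h1.eventually_lt_const h2).and (Filter.eventually_ge_atTop 2)).exists
  refine ⟨m, hm2, ?_⟩
  have hm0 : (0 : ℝ) < m := by
    have : 0 < m := by omega
    exact_mod_cast this
  have e1 : ((m : ℝ) + 2) ^ s = (m : ℝ) ^ s * (1 + 2 / (m : ℝ)) ^ s := by
    rw [← mul_pow]
    congr 1
    field_simp
  have hle : m ^ s ≤ (m + 2) ^ s := Nat.pow_le_pow_left (by omega) s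
  have h3 : ((m + 2) ^ s - m ^ s : ℕ) = ((m : ℝ) + 2) ^ s - (m : ℝ) ^ s := by
    rw [Nat.cast_sub hle]; push_cast; ring
  have h4 : (N : ℝ) * (((m : ℝ) + 2) ^ s - (m : ℝ) ^ s) ≤ (m : ℝ) ^ s := by
    rw [e1]
    have h5 : (m : ℝ) ^ s * (1 + 2 / (m : ℝ)) ^ s - (m : ℝ) ^ s ≤ (m : ℝ) ^ s * (1 / (N + 1)) := by
      have := mul_le_mul_of_nonneg_left hm1.le (by positivity : (0 : ℝ) ≤ (m : ℝ) ^ s)
      nlinarith
    have h6 : (N : ℝ) * ((m : ℝ) ^ s * (1 + 2 / (m : ℝ)) ^ s - (m : ℝ) ^ s) ≤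
        N * ((m : ℝ) ^ s * (1 / (N + 1))) := mul_le_mul_of_nonneg_left h5 (by positivity)
    refine h6.trans ?_
    rw [show (N : ℝ) * ((m : ℝ) ^ s * (1 / (N + 1))) = (m : ℝ) ^ s * (N / (N + 1)) by ring]
    have h7 : (N : ℝ) / (N + 1) ≤ 1 := by
      rw [div_le_one (by positivity)]
      linarith
    calc (m : ℝ) ^ s * (N / (N + 1)) ≤ (m : ℝ) ^ s * 1 :=
          mul_le_mul_of_nonneg_left h7 (by positivity)
      _ = (m : ℝ) ^ s := mul_one _
  have h8 : ((N * ((m + 2) ^ s - m ^ s) : ℕ) : ℝ) ≤ ((m ^ s : ℕ) : ℝ) := by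
    rw [Nat.cast_mul, h3]
    push_cast
    exact h4
  exact_mod_cast h8

/-- The number of points is at least `k`. -/
theorem Wh_one_ge (n p m : ℕ) (hm : 1 ≤ m) :
    n + Fintype.card (Sx n p) ≤ Wh (Mx n p m) 1 := by
  classical
  let q : Sx n p → Fin m := fun _ => ⟨0, by omega⟩
  let I : Set (Gr n p m) := Fset Finset.univ q
  have hI : (Mx n p m).Indep I := (linMat_indep _ _).2 (Fset_indep _ _)
  have hc : I.ncard = n + Fintype.card (Sx n p) := by
    have h1 := Fset_eRk (Finset.univ : Finset (Fin n)) q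
    rw [eRk_of_indep _ (Fset_indep _ q), Finset.card_univ, Fintype.card_fin] at h1
    exact_mod_cast h1
  rw [← hc]
  have hinj : Set.InjOn (fun x => (Mx n p m).closure {x}) I := by
    intro x hx y hy hxy
    have hx1 : x ∈ (Mx n p m).closure {x} := (Mx n p m).mem_closure_of_mem' (by simp)
    have hx2 : x ∈ (Mx n p m).closure {y} := by
      have hxy' : (Mx n p m).closure {x} = (Mx n p m).closure {y} := hxy
      rw [← hxy']; exact hx1
    have hy1 : (Mx n p m).Indep {y} := hI.subset (by simpa using hy)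
    have h2 := (hy1.mem_closure_iff'.1 hx2).2 (hI.subset (by
      intro z hz
      rcases hz with rfl | hz
      · exact hx
      · rw [Set.mem_singleton_iff.1 hz]; exact hy))
    simpa using h2
  rw [← hinj.ncard_image]
  unfold Wh
  apply Set.ncard_le_ncard _ (Set.toFinite _)
  rintro _ ⟨x, hx, rfl⟩
  refine ⟨Matroid.isFlat_closure _, ?_⟩
  show (Mx n p m).eRk ((Mx n p m).closure {x}) = _
  rw [Matroid.eRk_closure_eq, (hI.subset (by simpa using hx) : (Mx n p m).Indep {x}).eRk_eq_encard]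
  simp

/-- main counting theorem: a deep valley in the sequence of Whitney numbers -/
theorem valley (C : ℕ) : ∃ n p m : ℕ, 2 ≤ n ∧ 1 ≤ m ∧
    ((Fintype.card (Sx n p) + 3 : ℕ) : ℕ∞) ≤ (Mx n p m).eRank ∧
    C * Wh (Mx n p m) (Fintype.card (Sx n p) + 2) < Wh (Mx n p m) (Fintype.card (Sx n p) + 1) ∧
    C * Wh (Mx n p m) (Fintype.card (Sx n p) + 2) < Wh (Mx n p m) (Fintype.card (Sx n p) + 3) := by
  classical
  let p : ℕ := 6 * C + 4
  let n : ℕ := p + C * (p.choose 2 + 1) + 1
  have hp : p ≤ n := by omega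
  let s : ℕ := Fintype.card (Sx n p)
  obtain ⟨m, hm, hN⟩ := exists_large s (2 ^ (n + s))
  have hu : Wh (Mx n p m) (s + 2) ≤ (p.choose 2 + 1) * m ^ s := by
    refine (upper n p m hm hp).trans ?_
    rw [add_mul, one_mul]
    exact Nat.add_le_add_left hN _
  have hpos : 0 < m ^ s := by positivity
  -- the family of subsets of P
  let P : Finset (Fin n) := (Finset.univ : Finset (Fin p)).map (Fin.castLEEmb hp)
  have hP : ∀ x ∈ P, x.val < p := by
    intro x hx
    obtain ⟨y, _, rfl⟩ := Finset.mem_map.1 hx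
    exact y.2
  have hl3 : p.choose 3 * m ^ s ≤ Wh (Mx n p m) (s + 3) := by
    have h := lower (n := n) (p := p) (m := m) (Finset.powersetCard 3 P) 3 (by
      intro G hG a _ b hb _
      exact hP b ((Finset.mem_powersetCard.1 hG).1 hb)) (by
      intro G hG
      exact (Finset.mem_powersetCard.1 hG).2)
    rwa [Finset.card_powersetCard, Finset.card_map, Finset.card_univ, Fintype.card_fin] at h
  have hl1 : n * m ^ s ≤ Wh (Mx n p m) (s + 1) := by
    have h := lower (n := n) (p := p) (m := m)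
      (Finset.univ.map ⟨fun t : Fin n => ({t} : Finset (Fin n)), Finset.singleton_injective⟩) 1 (by
      intro G hG a ha b hb hab
      obtain ⟨t, _, ht⟩ := Finset.mem_map.1 hG
      have ht' : G = {t} := ht.symm
      rw [ht', Finset.mem_singleton] at ha hb
      rw [ha, hb] at hab
      exact absurd hab (lt_irrefl _)) (by
      intro G hG
      obtain ⟨t, _, ht⟩ := Finset.mem_map.1 hG
      have ht' : G = {t} := ht.symm
      rw [ht', Finset.card_singleton])
    rwa [Finset.card_map, Finset.card_univ, Fintype.card_fin] at h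
  have hch : C * (p.choose 2 + 1) < p.choose 3 := by
    have h1 := Nat.choose_succ_right_eq p 2
    have h2 : p - 2 = 6 * C + 2 := by omega
    rw [h2] at h1
    have h3 : 6 ≤ p.choose 2 := by
      calc 6 = Nat.choose 4 2 := by decide
        _ ≤ p.choose 2 := Nat.choose_le_choose 2 (by omega)
    nlinarith
  refine ⟨n, p, m, by omega, by omega, ?_, ?_, ?_⟩
  · have h4 : (Mx n p m).eRk (Fset (Finset.univ : Finset (Fin n)) (fun _ : Sx n p => (⟨0, by omega⟩ : Fin m)))
        ≤ (Mx n p m).eRank := Matroid.eRk_le_eRank _ _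
    rw [Fset_eRk, Finset.card_univ, Fintype.card_fin] at h4
    refine le_trans ?_ h4
    have : s + 3 ≤ n + s := by omega
    exact_mod_cast this
  · calc C * Wh (Mx n p m) (s + 2) ≤ C * ((p.choose 2 + 1) * m ^ s) := Nat.mul_le_mul_left _ hu
      _ = (C * (p.choose 2 + 1)) * m ^ s := by ring
      _ < n * m ^ s := by
          apply Nat.mul_lt_mul_of_pos_right _ hpos
          omega
      _ ≤ _ := hl1
  · calc C * Wh (Mx n p m) (s + 2) ≤ C * ((p.choose 2 + 1) * m ^ s) := Nat.mul_le_mul_left _ hu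
      _ = (C * (p.choose 2 + 1)) * m ^ s := by ring
      _ < p.choose 3 * m ^ s := Nat.mul_lt_mul_of_pos_right hch hpos
      _ ≤ _ := hl3

end Pool.Agent.Whitney
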