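import Pool.Agent.Work.MP_42e384_co.LinMat

set_option autoImplicit false

/-! The construction: the cycle matroid of the complete graph on `{0} ∪ Fin n` minus the edges
inside `{t < p}`, with a long line attached at every edge not incident with `0`. -/

namespace Pool.Agent.Whitney

open Set Submodule

/-- the edges `ab` with `a < b` and `p ≤ b` -/
abbrev Sx (n p : ℕ) := {ab : Fin n × Fin n // ab.1 < ab.2 ∧ p ≤ ab.2.val}

/-- the ground set -/
abbrev Gr (n p m : ℕ) := Fin n ⊕ (Sx n p ⊕ (Sx n p × Fin m))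

abbrev Vs (n p : ℕ) := (Fin n → ℚ) × (Sx n p → ℚ)

variable {n p m : ℕ}

def dv (s : Sx n p) : Fin n → ℚ := Pi.single s.1.1 1 - Pi.single s.1.2 1

def vec : Gr n p m → Vs n p
  | Sum.inl t => (Pi.single t 1, 0)
  | Sum.inr (Sum.inl s) => (dv s, 0)
  | Sum.inr (Sum.inr (s, i)) => (dv s, Pi.single s ((i.val : ℚ) + 1))

theorem dv_fst (s : Sx n p) : dv s s.1.1 = 1 := by
  have h : s.1.1 ≠ s.1.2 := ne_of_lt s.2.1
  simp [dv, Pi.single_apply, h]

theorem dv_snd (s : Sx n p) : dv s s.1.2 = -1 := by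
  have h : s.1.2 ≠ s.1.1 := (ne_of_lt s.2.1).symm
  simp [dv, Pi.single_apply, h]

noncomputable def Phi (q : Sx n p → Fin m) : Vs n p →ₗ[ℚ] (Fin n → ℚ) where
  toFun y := fun t => y.1 t - ∑ s, y.2 s / ((q s).val + 1 : ℚ) * dv s t
  map_add' := by
    intro y z; funext t
    simp only [Prod.fst_add, Prod.snd_add, Pi.add_apply, add_div, add_mul, Finset.sum_add_distrib]
    ring
  map_smul' := by
    intro c y; funext t
    simp only [Prod.smul_fst, Prod.smul_snd, Pi.smul_apply, smul_eq_mul, RingHom.id_apply, mul_sub,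
      Finset.mul_sum, mul_div_assoc, mul_assoc]

theorem Phi_inl (q : Sx n p → Fin m) (t : Fin n) :
    Phi q (vec (Sum.inl t : Gr n p m)) = Pi.single t 1 := by
  funext u
  simp [Phi, vec]

theorem Phi_mid (q : Sx n p → Fin m) (s : Sx n p) :
    Phi q (vec (Sum.inr (Sum.inl s) : Gr n p m)) = dv s := by
  funext u
  simp [Phi, vec]

theorem Phi_inr (q : Sx n p → Fin m) (s : Sx n p) (i : Fin m) :
    Phi q (vec (Sum.inr (Sum.inr (s, i)) : Gr n p m)) =
      (1 - ((i.val : ℚ) + 1) / ((q s).val + 1)) • dv s := by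
  funext u
  simp only [Phi, vec, LinearMap.coe_mk, AddHom.coe_mk, Pi.smul_apply, smul_eq_mul]
  rw [Finset.sum_eq_single s]
  · simp only [Pi.single_eq_same]
    ring
  · intro b _ hb
    simp [Pi.single_apply, hb]
  · simp

def WG (G : Finset (Fin n)) : Submodule ℚ (Fin n → ℚ) where
  carrier := {u | ∀ t, t ∉ G → u t = 0}
  add_mem' := by
    intro a b ha hb t ht
    simp [ha t ht, hb t ht]
  zero_mem' := by
    intro t _
    rfl
  smul_mem' := by
    intro c a ha t ht
    simp [ha t ht]

/-- the sets `G ∪ {(s, q s)}` -/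
def Fset (G : Finset (Fin n)) (q : Sx n p → Fin m) : Set (Gr n p m) :=
  {x | (∃ t ∈ G, x = Sum.inl t) ∨ (∃ s, x = Sum.inr (Sum.inr (s, q s)))}

theorem inl_mem_Fset {G : Finset (Fin n)} {q : Sx n p → Fin m} {t : Fin n} :
    (Sum.inl t : Gr n p m) ∈ Fset G q ↔ t ∈ G := by
  simp [Fset]

theorem mid_mem_Fset {G : Finset (Fin n)} {q : Sx n p → Fin m} {s : Sx n p} :
    (Sum.inr (Sum.inl s) : Gr n p m) ∈ Fset G q ↔ False := by
  simp [Fset]

theorem inr_mem_Fset {G : Finset (Fin n)} {q : Sx n p → Fin m} {s : Sx n p} {i : Fin m} :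
    (Sum.inr (Sum.inr (s, i)) : Gr n p m) ∈ Fset G q ↔ i = q s := by
  simp only [Fset, mem_setOf_eq, reduceCtorEq, and_false, exists_false, false_or, Sum.inr.injEq,
    Prod.mk.injEq]
  constructor
  · rintro ⟨s', rfl, h⟩
    exact h
  · intro h
    exact ⟨s, rfl, h⟩

theorem span_Fset_le (G : Finset (Fin n)) (q : Sx n p → Fin m) :
    span ℚ (vec '' (Fset G q)) ≤ (WG G).comap (Phi q) := by
  rw [span_le]
  rintro _ ⟨x, hx, rfl⟩
  rcases hx with ⟨t, ht, rfl⟩ | ⟨s, rfl⟩
  · show Phi q (vec _) ∈ WG G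
    rw [Phi_inl]
    intro u hu
    have : u ≠ t := fun h => hu (h ▸ ht)
    simp [Pi.single_apply, this]
  · show Phi q (vec _) ∈ WG G
    rw [Phi_inr, div_self (by positivity), sub_self, zero_smul]
    exact (WG G).zero_mem

/-- no two elements of `G` form an element of `Sx` -/
def Good (p : ℕ) (G : Finset (Fin n)) : Prop := ∀ a ∈ G, ∀ b ∈ G, a < b → b.val < p

theorem dv_notMem {G : Finset (Fin n)} (hG : Good p G) (s : Sx n p) : dv s ∉ WG G := by
  intro h
  have h1 : s.1.1 ∈ G := by
    by_contra h1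
    have := h _ h1
    rw [dv_fst] at this
    exact one_ne_zero this
  have h2 : s.1.2 ∈ G := by
    by_contra h2
    have := h _ h2
    rw [dv_snd] at this
    norm_num at this
  have h3 := hG _ h1 _ h2 s.2.1
  have h4 := s.2.2
  omega

theorem Fset_isFlat {G : Finset (Fin n)} (hG : Good p G) (q : Sx n p → Fin m) :
    (linMat (vec : Gr n p m → Vs n p)).IsFlat (Fset G q) := by
  rw [isFlat_iff]
  intro x hx
  have h := span_Fset_le G q hx
  rw [Submodule.mem_comap] at h
  rcases x with t | s | ⟨s, i⟩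
  · rw [Phi_inl] at h
    rw [inl_mem_Fset]
    by_contra ht
    have := h t ht
    simp at this
  · rw [Phi_mid] at h
    exact absurd h (dv_notMem hG s)
  · rw [Phi_inr] at h
    rw [inr_mem_Fset]
    by_contra hi
    have hne : (1 - ((i.val : ℚ) + 1) / ((q s).val + 1)) ≠ 0 := by
      intro h0
      rw [sub_eq_zero, eq_comm, div_eq_one_iff_eq (by positivity)] at h0
      apply hi
      apply Fin.ext
      have : (i.val : ℚ) = (q s).val := by linarith
      exact_mod_cast this
    apply dv_notMem hG s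
    have := (WG G).smul_mem (1 - ((i.val : ℚ) + 1) / ((q s).val + 1))⁻¹ h
    rwa [smul_smul, inv_mul_cancel₀ hne, one_smul] at this

/-- parametrisation of `Fset G q` -/
def emb (G : Finset (Fin n)) (q : Sx n p → Fin m) : (G ⊕ Sx n p) → Gr n p m
  | Sum.inl t => Sum.inl t.1
  | Sum.inr s => Sum.inr (Sum.inr (s, q s))

theorem emb_inj (G : Finset (Fin n)) (q : Sx n p → Fin m) : Function.Injective (emb G q) := by
  rintro (a | a) (b | b) h
  · simp only [emb, Sum.inl.injEq] at h
    rw [Subtype.ext h]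
  · simp [emb] at h
  · simp [emb] at h
  · simp only [emb, Sum.inr.injEq, Prod.mk.injEq] at h
    rw [h.1]

theorem range_emb (G : Finset (Fin n)) (q : Sx n p → Fin m) : Set.range (emb G q) = Fset G q := by
  ext x
  constructor
  · rintro ⟨a | s, rfl⟩
    · exact Or.inl ⟨a.1, a.2, rfl⟩
    · exact Or.inr ⟨s, rfl⟩
  · rintro (⟨t, ht, rfl⟩ | ⟨s, rfl⟩)
    · exact ⟨Sum.inl ⟨t, ht⟩, rfl⟩
    · exact ⟨Sum.inr s, rfl⟩

theorem Fset_indep (G : Finset (Fin n)) (q : Sx n p → Fin m) :
    LinearIndepOn ℚ (vec : Gr n p m → Vs n p) (Fset G q) := by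
  rw [← range_emb, linearIndepOn_range_iff (emb_inj G q), Fintype.linearIndependent_iff]
  intro g hg
  rw [Fintype.sum_sum_type] at hg
  have h2 : ∀ s, g (Sum.inr s) = 0 := by
    intro s
    have h := congrFun (congrArg Prod.snd hg) s
    simp only [Function.comp, emb, vec, Prod.snd_add, Prod.snd_sum, Prod.smul_snd, smul_zero,
      Finset.sum_const_zero, zero_add, Finset.sum_apply, Pi.smul_apply, smul_eq_mul, Prod.snd_zero,
      Pi.zero_apply] at h
    rw [Finset.sum_eq_single s] at h
    · simp only [Pi.single_eq_same] at h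
      rcases mul_eq_zero.1 h with h | h
      · exact h
      · exfalso
        have : (0 : ℚ) < (q s).val + 1 := by positivity
        linarith
    · intro b _ hb
      simp [Pi.single_apply, hb.symm]
    · simp
  rintro (t | s)
  · have h := congrFun (congrArg Prod.fst hg) t.1
    simp only [Function.comp, emb, vec, Prod.fst_add, Prod.fst_sum, Prod.smul_fst, h2, zero_smul,
      Finset.sum_const_zero, add_zero, Finset.sum_apply, Pi.smul_apply, smul_eq_mul, Prod.fst_zero,
      Pi.zero_apply] at h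
    rw [Finset.sum_eq_single t] at h
    · simpa using h
    · intro b _ hb
      have : t.1 ≠ b.1 := fun h => hb (Subtype.ext h.symm)
      simp [Pi.single_apply, this]
    · simp
  · exact h2 s

theorem Fset_eRk (G : Finset (Fin n)) (q : Sx n p → Fin m) :
    (linMat (vec : Gr n p m → Vs n p)).eRk (Fset G q) =
      ((G.card + Fintype.card (Sx n p) : ℕ) : ℕ∞) := by
  rw [eRk_of_indep _ (Fset_indep G q), ← range_emb, ← Set.image_univ,
    Set.ncard_image_of_injective _ (emb_inj G q), Set.ncard_univ, Nat.card_eq_fintype_card,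
    Fintype.card_sum, Fintype.card_coe]

end Pool.Agent.Whitney
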