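import Pool.Agent.Work.MP_42e384_co.Constr

set_option autoImplicit false

/-! Counting the flats of the construction. -/

namespace Pool.Agent.Whitney

open Set Submodule

/-- the Whitney numbers of the second kind -/
noncomputable def Wh {α : Type*} (M : Matroid α) (k : ℕ) : ℕ :=
  {F : Set α | M.IsFlat F ∧ M.eRk F = (k : ℕ∞)}.ncard

variable {n p m : ℕ}

/-- the matroid -/
noncomputable abbrev Mx (n p m : ℕ) : Matroid (Gr n p m) := linMat (vec : Gr n p m → Vs n p)

theorem Fset_inj {G G' : Finset (Fin n)} {q q' : Sx n p → Fin m}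
    (h : Fset G q = Fset G' q') : G = G' ∧ q = q' := by
  constructor
  · ext t
    rw [← inl_mem_Fset (q := q), h, inl_mem_Fset]
  · funext s
    have h1 : (Sum.inr (Sum.inr (s, q s)) : Gr n p m) ∈ Fset G' q' := by
      rw [← h, inr_mem_Fset]
    exact inr_mem_Fset.1 h1

theorem lower (𝒢 : Finset (Finset (Fin n))) (j : ℕ) (h1 : ∀ G ∈ 𝒢, Good p G)
    (h2 : ∀ G ∈ 𝒢, G.card = j) :
    𝒢.card * m ^ (Fintype.card (Sx n p)) ≤ Wh (Mx n p m) (Fintype.card (Sx n p) + j) := by
  classical
  let Z : Set (Finset (Fin n) × (Sx n p → Fin m)) := {z | z.1 ∈ 𝒢}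
  have hZ : Z = ((𝒢 ×ˢ (Finset.univ : Finset (Sx n p → Fin m)) :
      Finset (Finset (Fin n) × (Sx n p → Fin m))) : Set _) := by
    ext z; simp [Z]
  have hc : Z.ncard = 𝒢.card * m ^ (Fintype.card (Sx n p)) := by
    rw [hZ, Set.ncard_coe_finset, Finset.card_product, Finset.card_univ, Fintype.card_fun,
      Fintype.card_fin]
  rw [← hc, ← Set.ncard_image_of_injective (f := fun z : Finset (Fin n) × (Sx n p → Fin m) =>
    Fset z.1 z.2) Z (by
      rintro ⟨a, b⟩ ⟨a', b'⟩ h
      obtain ⟨h1, h2⟩ := Fset_inj h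
      exact Prod.ext h1 h2)]
  unfold Wh
  apply Set.ncard_le_ncard _ (Set.toFinite _)
  rintro _ ⟨⟨G, q⟩, hG, rfl⟩
  refine ⟨Fset_isFlat (h1 G hG) q, ?_⟩
  rw [Fset_eRk, h2 G hG, add_comm]

section flats

variable {F : Set (Gr n p m)} (hF : (Mx n p m).IsFlat F)

include hF

theorem flat_mid {s : Sx n p} {i : Fin m} (h1 : (Sum.inr (Sum.inl s) : Gr n p m) ∈ F)
    (h2 : (Sum.inr (Sum.inr (s, i)) : Gr n p m) ∈ F) (k : Fin m) :
    (Sum.inr (Sum.inr (s, k)) : Gr n p m) ∈ F := by
  apply (isFlat_iff _ F).1 hF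
  have e : vec (Sum.inr (Sum.inr (s, k)) : Gr n p m) =
      (1 - ((k.val : ℚ) + 1) / (i.val + 1)) • vec (Sum.inr (Sum.inl s) : Gr n p m)
      + (((k.val : ℚ) + 1) / (i.val + 1)) • vec (Sum.inr (Sum.inr (s, i)) : Gr n p m) := by
    have hi : ((i.val : ℚ) + 1) ≠ 0 := by positivity
    apply Prod.ext
    · funext t
      simp only [vec, Prod.fst_add, Prod.smul_fst, Pi.add_apply, Pi.smul_apply, smul_eq_mul]
      ring
    · funext t
      simp only [vec, Prod.snd_add, Prod.smul_snd, Pi.add_apply, Pi.smul_apply, smul_eq_mul,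
        Pi.zero_apply, mul_zero, zero_add]
      by_cases ht : t = s
      · subst ht
        simp only [Pi.single_eq_same]
        field_simp
      · simp [Pi.single_apply, ht]
  rw [e]
  exact add_mem (smul_mem _ _ (subset_span ⟨_, h1, rfl⟩)) (smul_mem _ _ (subset_span ⟨_, h2, rfl⟩))

theorem flat_two {s : Sx n p} {i j : Fin m} (hij : i ≠ j)
    (h1 : (Sum.inr (Sum.inr (s, i)) : Gr n p m) ∈ F)
    (h2 : (Sum.inr (Sum.inr (s, j)) : Gr n p m) ∈ F) :
    (Sum.inr (Sum.inl s) : Gr n p m) ∈ F := by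
  apply (isFlat_iff _ F).1 hF
  have hd : ((j.val : ℚ) - i.val) ≠ 0 := by
    intro h
    apply hij
    apply Fin.ext
    have : (j.val : ℚ) = i.val := by linarith
    exact_mod_cast this.symm
  have e : vec (Sum.inr (Sum.inl s) : Gr n p m) =
      (((j.val : ℚ) + 1) / (j.val - i.val)) • vec (Sum.inr (Sum.inr (s, i)) : Gr n p m)
      - (((i.val : ℚ) + 1) / (j.val - i.val)) • vec (Sum.inr (Sum.inr (s, j)) : Gr n p m) := by
    apply Prod.ext
    · funext t
      simp only [vec, Prod.fst_sub, Prod.smul_fst, Pi.sub_apply, Pi.smul_apply, smul_eq_mul]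
      field_simp
      ring
    · funext t
      simp only [vec, Prod.snd_sub, Prod.smul_snd, Pi.sub_apply, Pi.smul_apply, smul_eq_mul,
        Pi.zero_apply]
      by_cases ht : t = s
      · subst ht
        simp only [Pi.single_eq_same]
        field_simp
        ring
      · simp [Pi.single_apply, ht]
  rw [e]
  exact sub_mem (smul_mem _ _ (subset_span ⟨_, h1, rfl⟩)) (smul_mem _ _ (subset_span ⟨_, h2, rfl⟩))

theorem flat_pair (s : Sx n p)
    (h1 : (Sum.inl s.1.1 : Gr n p m) ∈ F) (h2 : (Sum.inl s.1.2 : Gr n p m) ∈ F) :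
    (Sum.inr (Sum.inl s) : Gr n p m) ∈ F := by
  apply (isFlat_iff _ F).1 hF
  have e : vec (Sum.inr (Sum.inl s) : Gr n p m) =
      vec (Sum.inl s.1.1 : Gr n p m) - vec (Sum.inl s.1.2 : Gr n p m) := by
    apply Prod.ext
    · simp [vec, dv]
    · simp [vec]
  rw [e]
  exact sub_mem (subset_span ⟨_, h1, rfl⟩) (subset_span ⟨_, h2, rfl⟩)

/-- flats with exactly one private point on every line -/
theorem flat_transversal (hm : 2 ≤ m)
    (hu : ∀ s : Sx n p, ∃ i : Fin m, ∀ j, (Sum.inr (Sum.inr (s, j)) : Gr n p m) ∈ F ↔ j = i) :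
    ∃ (G : Finset (Fin n)) (q : Sx n p → Fin m), Good p G ∧ F = Fset G q := by
  classical
  choose q hq using hu
  have hmid : ∀ s : Sx n p, (Sum.inr (Sum.inl s) : Gr n p m) ∉ F := by
    intro s hs
    have h1 := flat_mid hF hs ((hq s (q s)).2 rfl)
    have e0 := (hq s ⟨0, by omega⟩).1 (h1 _)
    have e1 := (hq s ⟨1, by omega⟩).1 (h1 _)
    have := congrArg Fin.val (e0.trans e1.symm)
    simp at this
  refine ⟨Finset.univ.filter (fun t => (Sum.inl t : Gr n p m) ∈ F), q, ?_, ?_⟩
  · intro a ha b hb hab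
    rw [Finset.mem_filter] at ha hb
    by_contra hp
    exact hmid ⟨(a, b), hab, by push Not at hp; exact hp⟩
      (flat_pair hF ⟨(a, b), hab, by push Not at hp; exact hp⟩ ha.2 hb.2)
  · ext x
    rcases x with t | s | ⟨s, i⟩
    · rw [inl_mem_Fset]; simp
    · rw [mid_mem_Fset]; simp [hmid s]
    · rw [inr_mem_Fset, hq s i]

end flats

/-- decoding of the data of a flat -/
def Dec (Y : Set (Fin n ⊕ Sx n p)) (τ : Sx n p → Option (Option (Fin m))) : Set (Gr n p m)
  | Sum.inl t => Sum.inl t ∈ Y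
  | Sum.inr (Sum.inl s) => Sum.inr s ∈ Y
  | Sum.inr (Sum.inr (s, i)) => τ s = some none ∨ τ s = some (some i)

theorem flat_dec {F : Set (Gr n p m)} (hF : (Mx n p m).IsFlat F)
    (hn : ¬ ∀ s : Sx n p, ∃ i : Fin m, ∀ j, (Sum.inr (Sum.inr (s, j)) : Gr n p m) ∈ F ↔ j = i) :
    ∃ (Y : Set (Fin n ⊕ Sx n p)) (τ : Sx n p → Option (Option (Fin m))),
      (∃ s, ∀ i, τ s ≠ some (some i)) ∧ F = Dec Y τ := by
  classical
  let τ : Sx n p → Option (Option (Fin m)) := fun s =>
    if h : ∃ i : Fin m, ∀ j, (Sum.inr (Sum.inr (s, j)) : Gr n p m) ∈ F ↔ j = i then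
      some (some h.choose)
    else if ∃ i : Fin m, (Sum.inr (Sum.inr (s, i)) : Gr n p m) ∈ F then some none else none
  refine ⟨{y | match y with
    | Sum.inl t => (Sum.inl t : Gr n p m) ∈ F
    | Sum.inr s => (Sum.inr (Sum.inl s) : Gr n p m) ∈ F}, τ, ?_, ?_⟩
  · push Not at hn
    obtain ⟨s, hs⟩ := hn
    refine ⟨s, fun i hi => ?_⟩
    have h0 : ¬ ∃ i : Fin m, ∀ j, (Sum.inr (Sum.inr (s, j)) : Gr n p m) ∈ F ↔ j = i := by
      rintro ⟨i, hi⟩
      obtain ⟨j, hj⟩ := hs i
      rcases hj with ⟨h1, h2⟩ | ⟨h1, h2⟩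
      · exact h2 ((hi j).1 h1)
      · exact h1 ((hi j).2 h2)
    simp only [τ, dif_neg h0] at hi
    split_ifs at hi <;> simp at hi
  · ext x
    rcases x with t | s | ⟨s, i⟩
    · rfl
    · rfl
    · show _ ↔ (τ s = some none ∨ τ s = some (some i))
      by_cases h : ∃ i : Fin m, ∀ j, (Sum.inr (Sum.inr (s, j)) : Gr n p m) ∈ F ↔ j = i
      · have hc := h.choose_spec
        simp only [τ, dif_pos h]
        rw [hc i]
        simp [eq_comm]
      · simp only [τ, dif_neg h]
        by_cases h2 : ∃ i : Fin m, (Sum.inr (Sum.inr (s, i)) : Gr n p m) ∈ F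
        · simp only [if_pos h2, true_or, iff_true]
          obtain ⟨i0, hi0⟩ := h2
          by_contra hi
          apply h
          refine ⟨i0, fun j => ⟨fun hj => ?_, fun hj => hj ▸ hi0⟩⟩
          by_contra hne
          exact hi (flat_mid hF (flat_two hF hne hj hi0) hi0 i)
        · simp only [if_neg h2, reduceCtorEq, or_self, iff_false]
          exact fun hi => h2 ⟨i, hi⟩

theorem card_tau (n p m : ℕ) :
    {τ : Sx n p → Option (Option (Fin m)) | ∃ s, ∀ i, τ s ≠ some (some i)}.ncard =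
      (m + 2) ^ (Fintype.card (Sx n p)) - m ^ (Fintype.card (Sx n p)) := by
  classical
  have hf : Function.Injective (fun (q : Sx n p → Fin m) (s : Sx n p) =>
      (some (some (q s)) : Option (Option (Fin m)))) := by
    intro q q' h
    funext s
    have := congrFun h s
    simpa using this
  have h1 : {τ : Sx n p → Option (Option (Fin m)) | ∃ s, ∀ i, τ s ≠ some (some i)} =
      (Set.range (fun (q : Sx n p → Fin m) (s : Sx n p) =>
      (some (some (q s)) : Option (Option (Fin m)))))ᶜ := by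
    ext τ
    simp only [mem_setOf_eq, mem_compl_iff, mem_range, not_exists]
    constructor
    · rintro ⟨s, hs⟩ q hq
      exact hs (q s) (congrFun hq s).symm
    · intro h
      by_contra hcon
      push Not at hcon
      choose q hq using hcon
      exact h q (funext fun s => (hq s).symm)
  rw [h1, Set.ncard_compl, ← Set.image_univ, Set.ncard_image_of_injective _ hf, Set.ncard_univ,
    Nat.card_eq_fintype_card, Nat.card_eq_fintype_card, Fintype.card_fun, Fintype.card_fun,
    Fintype.card_option, Fintype.card_option, Fintype.card_fin]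

theorem upper (n p m : ℕ) (hm : 2 ≤ m) (hp : p ≤ n) :
    Wh (Mx n p m) (Fintype.card (Sx n p) + 2) ≤
      p.choose 2 * m ^ (Fintype.card (Sx n p)) +
      2 ^ (n + Fintype.card (Sx n p)) *
        ((m + 2) ^ (Fintype.card (Sx n p)) - m ^ (Fintype.card (Sx n p))) := by
  classical
  let P : Finset (Fin n) := (Finset.univ : Finset (Fin p)).map (Fin.castLEEmb hp)
  let A : Set (Finset (Fin n) × (Sx n p → Fin m)) :=
    ((Finset.powersetCard 2 P ×ˢ (Finset.univ : Finset (Sx n p → Fin m)) :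
      Finset (Finset (Fin n) × (Sx n p → Fin m))) : Set _)
  have hA : A.ncard = p.choose 2 * m ^ (Fintype.card (Sx n p)) := by
    rw [Set.ncard_coe_finset, Finset.card_product, Finset.card_univ, Fintype.card_fun,
      Fintype.card_fin, Finset.card_powersetCard, Finset.card_map, Finset.card_univ,
      Fintype.card_fin]
  let B : Set (Set (Fin n ⊕ Sx n p) × (Sx n p → Option (Option (Fin m)))) :=
    Set.univ ×ˢ {τ : Sx n p → Option (Option (Fin m)) | ∃ s, ∀ i, τ s ≠ some (some i)}
  have hB : B.ncard = 2 ^ (n + Fintype.card (Sx n p)) *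
        ((m + 2) ^ (Fintype.card (Sx n p)) - m ^ (Fintype.card (Sx n p))) := by
    rw [Set.ncard_prod, card_tau, Set.ncard_univ, Nat.card_eq_fintype_card, Fintype.card_set,
      Fintype.card_sum, Fintype.card_fin]
  rw [← hA, ← hB]
  refine le_trans ?_ (add_le_add
    (Set.ncard_image_le (f := fun z : Finset (Fin n) × (Sx n p → Fin m) => Fset z.1 z.2)
      (Set.toFinite A))
    (Set.ncard_image_le (f := fun z : Set (Fin n ⊕ Sx n p) × (Sx n p → Option (Option (Fin m))) =>
      Dec z.1 z.2) (Set.toFinite B)))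
  refine le_trans ?_ (Set.ncard_union_le _ _)
  unfold Wh
  apply Set.ncard_le_ncard _ (Set.toFinite _)
  rintro F ⟨hF, hr⟩
  by_cases hu : ∀ s : Sx n p, ∃ i : Fin m, ∀ j, (Sum.inr (Sum.inr (s, j)) : Gr n p m) ∈ F ↔ j = i
  · left
    obtain ⟨G, q, hG, rfl⟩ := flat_transversal hF hm hu
    refine ⟨(G, q), ?_, rfl⟩
    rw [Fset_eRk] at hr
    have hc : G.card = 2 := by
      have : G.card + Fintype.card (Sx n p) = Fintype.card (Sx n p) + 2 := by exact_mod_cast hr
      omega
    simp only [A, Finset.coe_product, Finset.coe_univ, mem_prod, Finset.mem_coe,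
      Finset.mem_powersetCard, mem_univ, and_true]
    refine ⟨?_, hc⟩
    obtain ⟨a, b, hab, rfl⟩ := Finset.card_eq_two.1 hc
    have key : ∀ u v : Fin n, u < v → v.val < p →
        u ∈ P ∧ v ∈ P := by
      intro u v huv hv
      have hu' : u.val < p := lt_trans huv hv
      refine ⟨Finset.mem_map.2 ⟨⟨u.val, hu'⟩, Finset.mem_univ _, Fin.ext rfl⟩,
        Finset.mem_map.2 ⟨⟨v.val, hv⟩, Finset.mem_univ _, Fin.ext rfl⟩⟩
    intro x hx
    simp only [Finset.mem_insert, Finset.mem_singleton] at hx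
    rcases lt_or_gt_of_ne hab with h | h
    · have h3 := key a b h (hG a (by simp) b (by simp) h)
      rcases hx with rfl | rfl
      · exact h3.1
      · exact h3.2
    · have h3 := key b a h (hG b (by simp) a (by simp) h)
      rcases hx with rfl | rfl
      · exact h3.2
      · exact h3.1
  · right
    obtain ⟨Y, τ, h1, h2⟩ := flat_dec hF hu
    exact ⟨(Y, τ), ⟨mem_univ _, h1⟩, h2.symm⟩

end Pool.Agent.Whitney
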