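import Mathlib

set_option autoImplicit false

/-! The matroid of a finite family of vectors over the rationals: flats and rank. -/

namespace Pool.Agent.Whitney

open Set Submodule

variable {α V : Type*} [AddCommGroup V] [Module ℚ V]

theorem finrank_of_indep {v : α → V} {I : Set α} (hf : I.Finite) (hI : LinearIndepOn ℚ v I) :
    Module.finrank ℚ (span ℚ (v '' I)) = I.ncard := by
  classical
  haveI : Fintype I := hf.fintype
  have h := finrank_span_eq_card (R := ℚ) (b := fun i : I => v i) hI
  rw [Set.image_eq_range, h, Set.ncard_eq_toFinset_card', Set.toFinset_card]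

theorem aug (v : α → V) {I J : Set α} (hfI : I.Finite) (hfJ : J.Finite)
    (hI : LinearIndepOn ℚ v I) (hJ : LinearIndepOn ℚ v J)
    (h : I.ncard < J.ncard) : ∃ e ∈ J, e ∉ I ∧ LinearIndepOn ℚ v (insert e I) := by
  by_contra hcon
  push Not at hcon
  have hsub : span ℚ (v '' J) ≤ span ℚ (v '' I) := by
    rw [span_le]
    rintro _ ⟨x, hx, rfl⟩
    by_contra hx2
    have hxI : x ∉ I := fun hxI => hx2 (subset_span ⟨x, hxI, rfl⟩)
    exact hcon x hx hxI (hI.insert hx2)
  haveI : Module.Finite ℚ (span ℚ (v '' I)) :=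
    Module.Finite.iff_fg.mpr ((Submodule.fg_span (hfI.image v)))
  have h2 := Submodule.finrank_mono hsub
  rw [finrank_of_indep hfI hI, finrank_of_indep hfJ hJ] at h2
  omega

/-- the matroid of a finite family of vectors -/
noncomputable def linMat [Finite α] (v : α → V) : Matroid α :=
  (IndepMatroid.ofFinite (E := Set.univ) Set.finite_univ (fun I => LinearIndepOn ℚ v I)
    (linearIndepOn_empty ℚ v) (fun _ _ hJ hIJ => hJ.mono hIJ)
    (fun I J hI hJ h => aug v (Set.toFinite I) (Set.toFinite J) hI hJ h)
    (fun _ _ => Set.subset_univ _)).matroid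

variable [Finite α] (v : α → V)

@[simp] theorem linMat_E : (linMat v).E = Set.univ := rfl

@[simp] theorem linMat_indep (I : Set α) : (linMat v).Indep I ↔ LinearIndepOn ℚ v I := by
  simp [linMat]

instance linMat_finite : (linMat v).Finite := ⟨by simpa using Set.finite_univ⟩

theorem mem_closure_iff (F : Set α) (x : α) :
    x ∈ (linMat v).closure F ↔ v x ∈ span ℚ (v '' F) := by
  obtain ⟨I, hI⟩ := (linMat v).exists_isBasis F (by simp)
  have hsp : span ℚ (v '' I) = span ℚ (v '' F) := by
    apply le_antisymm (span_mono (image_mono hI.subset))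
    rw [span_le]
    rintro _ ⟨y, hy, rfl⟩
    by_contra hy2
    have hyI : y ∉ I := fun hyI => hy2 (subset_span ⟨y, hyI, rfl⟩)
    have h1 : LinearIndepOn ℚ v (insert y I) :=
      ((linMat_indep v I).1 hI.indep).insert hy2
    have h2 := hI.eq_of_subset_indep ((linMat_indep v _).2 h1) (subset_insert _ _)
      (insert_subset hy hI.subset)
    exact hyI (h2 ▸ mem_insert _ _)
  rw [← hI.closure_eq_closure, hI.indep.mem_closure_iff', ← hsp]
  have hI' := (linMat_indep v I).1 hI.indep
  simp only [linMat_E, mem_univ, true_and, linMat_indep]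
  rw [hI'.mem_span_iff]

theorem isFlat_iff (F : Set α) :
    (linMat v).IsFlat F ↔ ∀ x, v x ∈ span ℚ (v '' F) → x ∈ F := by
  rw [Matroid.isFlat_iff_closure_eq]
  constructor
  · intro h x hx
    rw [← h]
    exact (mem_closure_iff v F x).2 hx
  · intro h
    apply Subset.antisymm
    · intro x hx
      exact h x ((mem_closure_iff v F x).1 hx)
    · intro x hx
      exact (mem_closure_iff v F x).2 (subset_span ⟨x, hx, rfl⟩)

theorem eRk_of_indep {I : Set α} (hI : LinearIndepOn ℚ v I) : (linMat v).eRk I = I.ncard := by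
  rw [((linMat_indep v I).2 hI).eRk_eq_encard, (Set.toFinite I).cast_ncard_eq]

end Pool.Agent.Whitney
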